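import Pool.Agent.H70.RK.T2

/-!
# Hints for addresses, monotonicity of adaptive questions (rows ADS and ADM)
-/

set_option autoImplicit false

namespace Pool.Agent.H21.RK

open Pool.Agent.H70.RK

/-- ADS: every family of addresses has hints. -/
theorem pf_ADS : Pool.Agent.H70.RK.T_ADS := by
  intro I Ch m
  induction m with
  | zero =>
    intro a
    refine ⟨(), ?_⟩
    funext s i
    exact i.elim0
  | succ m ih =>
    intro a
    obtain ⟨h2, hh⟩ := ih (fun s i => a s i.succ)
    refine ⟨(fun x => a x.1 0, h2), ?_⟩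
    funext s
    show Fin.cons (α := fun _ => Ch s) (a s 0) (adr m h2 s) = a s
    rw [hh]
    exact Fin.cons_self_tail (α := fun _ => Ch s) (a s)

/-- Monotonicity in the number of questions. -/
theorem adp_mono_c {V α : Type} {q : ((V → Bool) → Bool) → Prop} {c c' : ℕ} {g : (V → Bool) → α}
    (h : Adp q c g) (hc : c ≤ c') : Adp q c' g := by
  induction h generalizing c' with
  | pure c a => exact Adp.pure c' a
  | ask c p g g0 g1 hp h0 h1 hg1 hg0 ih0 ih1 =>
    obtain ⟨c'', rfl⟩ : ∃ c'', c' = c'' + 1 := ⟨c' - 1, by omega⟩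
    exact Adp.ask c'' p g g0 g1 hp (ih0 (by omega)) (ih1 (by omega)) hg1 hg0

/-- Monotonicity in the class of questions. -/
theorem adp_mono_q {V α : Type} {q q' : ((V → Bool) → Bool) → Prop} {c : ℕ} {g : (V → Bool) → α}
    (h : Adp q c g) (hq : ∀ p, q p → q' p) : Adp q' c g := by
  induction h with
  | pure c a => exact Adp.pure c a
  | ask c p g g0 g1 hp h0 h1 hg1 hg0 ih0 ih1 =>
    exact Adp.ask c p g g0 g1 (hq p hp) ih0 ih1 hg1 hg0

/-- Monotonicity of the questions in the size. -/
theorem qst_mono_t {V : Type} {t t' : ℕ} (ht : t ≤ t') :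
    ∀ (j : ℕ) (p : (V → Bool) → Bool), Qst V t j p → Qst V t' j p
  | 0, _, h => h
  | j + 1, _, ⟨L, h1, h2, h3⟩ => ⟨L, h1.trans (Nat.pow_le_pow_right (by norm_num) ht),
      fun g hg => adp_mono_c (adp_mono_q (h2 g hg) (qst_mono_t ht j)) ht, h3⟩

/-- Monotonicity of the questions in the level. -/
theorem qst_succ {V : Type} {t j : ℕ} (ht : 1 ≤ t) (p : (V → Bool) → Bool) (h : Qst V t j p) :
    Qst V t (j + 1) p := by
  obtain ⟨t', rfl⟩ : ∃ t', t = t' + 1 := ⟨t - 1, by omega⟩
  refine ⟨[p], ?_, ?_, ?_⟩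
  · simpa using Nat.one_le_two_pow
  · intro g hg
    rw [List.mem_singleton] at hg
    subst hg
    exact Adp.ask t' g g (fun _ => false) (fun _ => true) h (Adp.pure _ _) (Adp.pure _ _)
      (fun X hX => hX) (fun X hX => hX)
  · intro X
    simp

/-- ADM: monotonicity. -/
theorem pf_ADM : Pool.Agent.H70.RK.T_ADM := by
  intro V α t t' j j' c c' g ht hj hc ht' h
  refine adp_mono_c (adp_mono_q h fun p hp => ?_) hc
  have h1 := qst_mono_t ht j p hp
  clear hp h
  induction hj with
  | refl => exact h1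
  | step _ ih => exact qst_succ ht' p ih

end Pool.Agent.H21.RK
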