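import Pool.Agent.H70.RK.T2

/-!
# The answers of the instances of one length can be replaced by junk (row STB)
-/

set_option autoImplicit false

namespace Pool.Agent.H21.RK

open Finset Filter Pool.Agent.H6.NB Pool.Agent.H70.OQ Pool.Agent.H78.XQ Pool.Agent.H70.RK
open Pool.Agent.H70.RC (Term DNF pv fv psat run Bad Arry Right RightP sec arrp)

section abs

variable {I : Type} [DecidableEq I]

/-- Refreshing one coordinate. -/
theorem sum_upd {G : I → Type} [Fintype (∀ i, G i)] (i : I) [Fintype (G i)] (H : (∀ i, G i) → ℝ) :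
    ∑ g : (∀ i, G i), ∑ y : G i, H (Function.update g i y) = (Fintype.card (G i) : ℝ) * ∑ g, H g := by
  have h1 : ∑ g : (∀ i, G i), ∑ y : G i, H (Function.update g i y) =
      ∑ p : (∀ i, G i) × G i, H (Function.update p.1 i p.2) := by
    rw [Fintype.sum_prod_type]
  have h2 : ∑ p : (∀ i, G i) × G i, H (Function.update p.1 i p.2) =
      ∑ p : (∀ i, G i) × G i, H p.1 := by
    refine Finset.sum_nbij' (fun p => (Function.update p.1 i p.2, p.1 i))
      (fun p => (Function.update p.1 i p.2, p.1 i)) ?_ ?_ ?_ ?_ ?_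
    · intro p _; exact Finset.mem_univ _
    · intro p _; exact Finset.mem_univ _
    · intro p _; simp
    · intro p _; simp
    · intro p _; rfl
  rw [h1, h2, Fintype.sum_prod_type]
  simp [Finset.mul_sum]

/-- One step. -/
theorem one_step (hTVX : T_TVX) {A : I → Type} [Fintype (∀ i, A i)] [Fintype (∀ i, A i → Bool)]
    (i : I) [Fintype (A i)] [DecidableEq (A i)] (Θ : (∀ i, A i) → (∀ i, A i → Bool) → ℝ)
    (β : (∀ i, A i) → (∀ i, A i → Bool) → Bool) (wt : (∀ i, A i) → ℝ) (δ : ℝ)
    (hΘ : ∀ a g, 0 ≤ Θ a g ∧ Θ a g ≤ 1) (hw : ∀ a, 0 ≤ wt a)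
    (hΘa : ∀ a x g, Θ (Function.update a i x) g = Θ a g)
    (hβ : ∀ a x g y, β (Function.update a i x) (Function.update g i y) = β a g)
    (hwa : ∀ a x, wt (Function.update a i x) = wt a) (h1 : 1 ≤ Fintype.card (A i))
    (hδ : 1 ≤ δ * √(Fintype.card (A i))) :
    ∑ a, ∑ g, wt a * Θ a g - δ * ∑ a, ∑ _g : (∀ i, A i → Bool), wt a ≤
      ∑ a, ∑ g, wt a * Θ a (Function.update g i (Function.update (g i) (a i) (β a g))) := by
  set cA : ℝ := (Fintype.card (A i) : ℝ) with hcA
  set cG : ℝ := (Fintype.card (A i → Bool) : ℝ) with hcG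
  have hcA1 : (1 : ℝ) ≤ cA := by rw [hcA]; exact_mod_cast h1
  have hcA0 : 0 < cA := by linarith
  have hcG0 : 0 < cG := by
    rw [hcG]; exact_mod_cast Fintype.card_pos
  -- the right side, refreshed
  have hR : cA * (cG * ∑ a, ∑ g, wt a * Θ a (Function.update g i (Function.update (g i) (a i) (β a g)))) =
      ∑ a, ∑ g, wt a * ∑ x : A i, ∑ y : A i → Bool,
        Θ a (Function.update g i (Function.update y x (β a g))) := by
    have e1 : ∀ a : (∀ i, A i), cG * ∑ g, wt a * Θ a (Function.update g i (Function.update (g i) (a i) (β a g)))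
        = ∑ g, wt a * ∑ y : A i → Bool,
          Θ a (Function.update g i (Function.update y (a i) (β a g))) := by
      intro a
      have := sum_upd (G := fun i => A i → Bool) i
        (fun g => wt a * Θ a (Function.update g i (Function.update (g i) (a i) (β a g))))
      rw [hcG, ← this]
      refine Finset.sum_congr rfl fun g _ => ?_
      rw [Finset.mul_sum]
      refine Finset.sum_congr rfl fun y _ => ?_
      have hb := hβ a (a i) g y
      rw [Function.update_eq_self] at hb
      rw [hb]
      simp
    rw [Finset.mul_sum]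
    simp only [e1]
    have e2 := sum_upd (G := A) i (fun a => ∑ g, wt a * ∑ y : A i → Bool,
          Θ a (Function.update g i (Function.update y (a i) (β a g))))
    rw [hcA, ← e2]
    refine Finset.sum_congr rfl fun a _ => ?_
    rw [Finset.sum_comm]
    refine Finset.sum_congr rfl fun g _ => ?_
    rw [Finset.mul_sum]
    refine Finset.sum_congr rfl fun x _ => ?_
    rw [hwa]
    congr 1
    refine Finset.sum_congr rfl fun y _ => ?_
    have hb := hβ a x g (g i)
    rw [Function.update_eq_self] at hb
    rw [hb, hΘa]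
    simp
  -- the left side, refreshed
  have hL : cG * ∑ a, ∑ g, wt a * Θ a g =
      ∑ a, ∑ g, wt a * ∑ y : A i → Bool, Θ a (Function.update g i y) := by
    rw [Finset.mul_sum]
    refine Finset.sum_congr rfl fun a _ => ?_
    have := sum_upd (G := fun i => A i → Bool) i (fun g => wt a * Θ a g)
    rw [hcG, ← this]
    refine Finset.sum_congr rfl fun g _ => ?_
    rw [Finset.mul_sum]
  have key : cA * (cG * ∑ a, ∑ g, wt a * Θ a g) - √cA * cG * ∑ a, ∑ _g : (∀ i, A i → Bool), wt a ≤
      cA * (cG * ∑ a, ∑ g, wt a * Θ a (Function.update g i (Function.update (g i) (a i) (β a g)))) := by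
    rw [hR, hL, Finset.mul_sum, Finset.mul_sum, ← Finset.sum_sub_distrib]
    refine Finset.sum_le_sum fun a _ => ?_
    rw [Finset.mul_sum, Finset.mul_sum, ← Finset.sum_sub_distrib]
    refine Finset.sum_le_sum fun g _ => ?_
    have ht := hTVX (A i) (fun y => Θ a (Function.update g i y)) (β a g) (fun y => hΘ _ _)
    have := mul_le_mul_of_nonneg_left ht (hw a)
    rw [hcA, hcG]
    nlinarith [this]
  have hW : 0 ≤ ∑ a, ∑ _g : (∀ i, A i → Bool), wt a :=
    Finset.sum_nonneg fun a _ => Finset.sum_nonneg fun g _ => hw a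
  have hs : √cA * cG * ∑ a, ∑ _g : (∀ i, A i → Bool), wt a ≤
      cA * (cG * (δ * ∑ a, ∑ _g : (∀ i, A i → Bool), wt a)) := by
    have h2 : √cA ≤ cA * δ := by
      have h3 : √cA * √cA = cA := Real.mul_self_sqrt hcA0.le
      have h4 : 0 ≤ √cA := Real.sqrt_nonneg _
      nlinarith [mul_le_mul_of_nonneg_left hδ h4]
    have h5 : 0 ≤ cG * ∑ a, ∑ _g : (∀ i, A i → Bool), wt a := mul_nonneg hcG0.le hW
    nlinarith [mul_le_mul_of_nonneg_right h2 h5]
  have hfin : cA * (cG * (∑ a, ∑ g, wt a * Θ a g - δ * ∑ a, ∑ _g : (∀ i, A i → Bool), wt a)) ≤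
      cA * (cG * ∑ a, ∑ g, wt a * Θ a (Function.update g i (Function.update (g i) (a i) (β a g)))) := by
    have e : cA * (cG * (∑ a, ∑ g, wt a * Θ a g - δ * ∑ a, ∑ _g : (∀ i, A i → Bool), wt a)) =
      cA * (cG * ∑ a, ∑ g, wt a * Θ a g) - cA * (cG * (δ * ∑ a, ∑ _g : (∀ i, A i → Bool), wt a)) := by
      ring
    rw [e]
    linarith
  have h6 := le_of_mul_le_mul_left hfin hcA0
  exact le_of_mul_le_mul_left h6 hcG0

/-- The simultaneous update of the arrays in `S`. -/
def us {A : I → Type} [∀ i, DecidableEq (A i)] (S : Finset I) (a : ∀ i, A i) (g : ∀ i, A i → Bool)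
    (b : I → Bool) : ∀ i, A i → Bool :=
  fun i => if i ∈ S then Function.update (g i) (a i) (b i) else g i

/-- Many steps. -/
theorem many_steps (hTVX : T_TVX) {A : I → Type} [Fintype (∀ i, A i)] [Fintype (∀ i, A i → Bool)]
    [∀ i, Fintype (A i)] [∀ i, DecidableEq (A i)] (Θ : (∀ i, A i) → (∀ i, A i → Bool) → ℝ)
    (b : (∀ i, A i) → (∀ i, A i → Bool) → I → Bool) (wt : (∀ i, A i) → ℝ) (δ : ℝ)
    (hΘ : ∀ a g, 0 ≤ Θ a g ∧ Θ a g ≤ 1) (hw : ∀ a, 0 ≤ wt a) (S : Finset I)
    (hΘa : ∀ i ∈ S, ∀ a x g, Θ (Function.update a i x) g = Θ a g)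
    (hβ : ∀ i ∈ S, ∀ a x g y, b (Function.update a i x) (Function.update g i y) = b a g)
    (hwa : ∀ i ∈ S, ∀ a x, wt (Function.update a i x) = wt a)
    (h1 : ∀ i ∈ S, 1 ≤ Fintype.card (A i))
    (hδ : ∀ i ∈ S, 1 ≤ δ * √(Fintype.card (A i))) :
    ∑ a, ∑ g, wt a * Θ a g - (S.card * δ) * ∑ a, ∑ _g : (∀ i, A i → Bool), wt a ≤
      ∑ a, ∑ g, wt a * Θ a (us S a g (b a g)) := by
  induction S using Finset.induction_on with
  | empty =>
    have : ∀ (a : ∀ i, A i) (g : ∀ i, A i → Bool), us ∅ a g (b a g) = g := by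
      intro a g; funext i; simp [us]
    simp [this]
  | insert i S hi ih =>
    have ih' := ih (fun j hj => hΘa j (Finset.mem_insert_of_mem hj))
      (fun j hj => hβ j (Finset.mem_insert_of_mem hj)) (fun j hj => hwa j (Finset.mem_insert_of_mem hj))
      (fun j hj => h1 j (Finset.mem_insert_of_mem hj)) (fun j hj => hδ j (Finset.mem_insert_of_mem hj))
    have hii := Finset.mem_insert_self i S
    have st := one_step hTVX i (fun a g => Θ a (us S a g (b a g))) (fun a g => b a g i) wt δ
      (fun a g => hΘ _ _) hw ?_ ?_ (hwa i hii) (h1 i hii) (hδ i hii)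
    · have e : ∀ (a : ∀ i, A i) (g : ∀ i, A i → Bool),
          us S a (Function.update g i (Function.update (g i) (a i) (b a g i)))
            (b a (Function.update g i (Function.update (g i) (a i) (b a g i)))) =
          us (insert i S) a g (b a g) := by
        intro a g
        have hb := hβ i hii a (a i) g (Function.update (g i) (a i) (b a g i))
        rw [Function.update_eq_self] at hb
        rw [hb]
        funext j
        unfold us
        by_cases hj : j = i
        · subst hj
          simp [hi]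
        · simp [Finset.mem_insert, hj]
      simp only [e] at st
      rw [Finset.card_insert_of_notMem hi]
      push_cast
      have : (((S.card : ℝ) + 1) * δ) * ∑ a, ∑ _g : (∀ i, A i → Bool), wt a =
        (S.card * δ) * ∑ a, ∑ _g : (∀ i, A i → Bool), wt a +
          δ * ∑ a, ∑ _g : (∀ i, A i → Bool), wt a := by ring
      rw [this]
      linarith
    · intro a x g
      have hb := hβ i hii a x g (g i)
      rw [Function.update_eq_self] at hb
      show Θ (Function.update a i x) (us S (Function.update a i x) g (b (Function.update a i x) g)) = _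
      rw [hb, hΘa i hii]
      congr 1
      funext j
      unfold us
      by_cases hj : j = i
      · subst hj; simp [hi]
      · simp [Function.update_of_ne hj]
    · intro a x g y
      show b (Function.update a i x) (Function.update g i y) i = b a g i
      rw [hβ i hii]

end abs

open Classical in
/-- STB: the answers of the instances of length `L` can be replaced by junk. -/
theorem pf_STB (hTVX : Pool.Agent.H70.RK.T_TVX) (hPLN : Pool.Agent.H70.RK.T_PLN)
    (hANL : Pool.Agent.H70.RK.T_ANL) : Pool.Agent.H70.RK.T_STB := by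
  intro k V n N L D X P Φ wt hk hnL hLN hΦ hw hwa
  have hne : ∀ (s s' : Li n N), s.1.length = L → s'.1.length < L → s' ≠ s := by
    intro s s' h1 h2 h3
    rw [h3] at h2
    omega
  have hcard : ∀ s : Li n N, s.1.length = L → (16 : ℝ) ^ L ≤ (Fintype.card (Aa k s.1) : ℝ) := by
    intro s hs
    have h1 : Fintype.card (Aa k s.1) = (2 ^ (4 * s.1.length)) ^ k := by
      simp [Aa, Ck]
    rw [h1, hs]
    push_cast
    have h2 : (16 : ℝ) ^ L = 2 ^ (4 * L) := by
      rw [pow_mul]; norm_num
    rw [h2]
    exact le_self_pow₀ (one_le_pow₀ (by norm_num)) (by omega)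
  have key := many_steps hTVX (A := fun s : Li n N => Aa k s.1)
    (fun a g => Φ (lev V (ina n N D X a g P) L))
    (fun a g s => if s.1.length = L then decide (ans V (lev V (ina n N D X a g P) L) s.1) else false)
    wt ((1 / 4 : ℝ) ^ L) (fun a g => hΦ _) hw (univ.filter fun s : Li n N => s.1.length = L)
    ?_ ?_ ?_ ?_ ?_
  · have e1 : (∑ s : Li n N, if s.1.length = L then (1 / 4 : ℝ) ^ L else 0) =
        ((univ.filter fun s : Li n N => s.1.length = L).card : ℝ) * (1 / 4 : ℝ) ^ L := by
      rw [← Finset.sum_filter, Finset.sum_const, nsmul_eq_mul]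
    rw [e1]
    refine key.trans (le_of_eq ?_)
    refine Finset.sum_congr rfl fun a _ => Finset.sum_congr rfl fun g _ => ?_
    have h4 := (hPLN k V n N L D X a g P hk hnL hLN).2.2.2.1
      (fun s => if s.1.length = L then decide (ans V (lev V (ina n N D X a g P) L) s.1) else false)
      (fun s hs => by simp [hs])
    have e2 : lev V (ina n N D X a g P) (L + 1) = lev V (ina n N D X a
        (us (univ.filter fun s : Li n N => s.1.length = L) a g (fun s => if s.1.length = L then
          decide (ans V (lev V (ina n N D X a g P) L) s.1) else false)) P) L := by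
      funext w
      rw [h4 w]
      congr 2
      funext s
      unfold us
      by_cases hs : s.1.length = L
      · simp [hs]
      · simp [hs]
    rw [e2]
  · intro s hs a x g
    rw [Finset.mem_filter] at hs
    show Φ _ = Φ _
    congr 1
    funext w
    exact (((hPLN k V n N L D X (Function.update a s x) g P hk hnL hLN).2.2.1 a g P
      (fun s' h' => Function.update_of_ne (hne s s' hs.2 h') _ _) (fun s' _ => rfl)
      (fun p _ => rfl)).2 rfl rfl w)
  · intro s hs a x g y
    rw [Finset.mem_filter] at hs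
    funext s'
    show (if s'.1.length = L then _ else _) = (if s'.1.length = L then _ else _)
    by_cases h : s'.1.length = L
    · rw [if_pos h, if_pos h]
      have : ans V (lev V (ina n N D X (Function.update a s x) (Function.update g s y) P) L) s'.1 ↔
          ans V (lev V (ina n N D X a g P) L) s'.1 := by
        refine hANL k V _ _ s'.1 fun w hw' => ?_
        exact (((hPLN k V n N L D X (Function.update a s x) (Function.update g s y) P hk hnL
          hLN).2.2.1 a g P (fun s' h' => Function.update_of_ne (hne s s' hs.2 h') _ _)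
          (fun s' h' => Function.update_of_ne (hne s s' hs.2 h') _ _)
          (fun p _ => rfl)).1 w (by omega))
      simp only [this]
    · rw [if_neg h, if_neg h]
  · intro s hs a x
    rw [Finset.mem_filter] at hs
    exact hwa _ _ fun s' h' => Function.update_of_ne (fun h => h' (by rw [h]; exact hs.2)) _ _
  · intro s hs
    rw [Finset.mem_filter] at hs
    exact Fintype.card_pos
  · intro s hs
    rw [Finset.mem_filter] at hs
    have h1 := hcard s hs.2
    have h2 : (4 : ℝ) ^ L ≤ √(Fintype.card (Aa k s.1) : ℝ) := by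
      apply Real.le_sqrt_of_sq_le
      refine le_trans (le_of_eq ?_) h1
      rw [← pow_mul, mul_comm, pow_mul]
      norm_num
    have h3 : (1 / 4 : ℝ) ^ L * 4 ^ L = 1 := by
      rw [← mul_pow]; norm_num
    calc (1 : ℝ) = (1 / 4 : ℝ) ^ L * 4 ^ L := h3.symm
      _ ≤ _ := mul_le_mul_of_nonneg_left h2 (by positivity)

end Pool.Agent.H21.RK
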